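import Pool.Agent.REV.StmtsV

/-!
# Squad REV, row VEO: the next density through `R^(n-1) - ph`
-/

set_option autoImplicit false

open Set MeasureTheory Filter
open scoped Topology

namespace Pool.Agent.REV.H40

open Pool.Agent.REV

theorem psd_meas (n : ℕ) (b : ℝ) : Measurable (psd n b) := by
  unfold psd wb
  fun_prop

/-- row VEO -/
theorem veo (vdr : VdrStmt) (vlm : VlmStmt) (vne : VneStmt) (vta : VtaStmt) (vps : VpsStmt) :
    VeoStmt := by
  intro n C σ f f' hn hC hσ hf hf' hst b hb
  set a : ℝ := 1 / b with ha'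
  have ha : 0 < a := by rw [ha']; positivity
  obtain ⟨hd1, hzc, hdc⟩ := vdr n f hn hf
  obtain ⟨_, _, _, _, _, _, hdi, _, htail⟩ := vlm n f hn hf
  obtain ⟨hv1, hv2, _, _⟩ := (vne n C σ f f' hn hC.le hσ.le hf hf' hst).1 b hb
  obtain ⟨_, _, ht3, _⟩ := vta n C σ f f' hn hC hσ hf hf' hst a ha
  obtain ⟨hp1, hp2⟩ := vps n b hn hb
  rw [← ha'] at hv1 hv2 hp1 hp2
  have hpm := psd_meas n b
  -- integrability
  have hI : IntegrableOn (fun s : ℝ => psd n b s * (RA n f 1 ^ (n - 1) - ph n f s)) (Ioi a) := by
    refine Integrable.mono' (g := fun s => (n : ℝ) * |RA n f 1 ^ (n - 1) - ph n f s|)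
      (ht3.abs.const_mul _) (hpm.aestronglyMeasurable.mul ht3.aestronglyMeasurable) ?_
    rw [ae_restrict_iff' measurableSet_Ioi]
    refine Eventually.of_forall fun s hs => ?_
    obtain ⟨h0, h1⟩ := hp1 s hs
    rw [Real.norm_eq_abs, abs_mul, abs_of_nonneg h0]
    exact mul_le_mul_of_nonneg_right h1 (abs_nonneg _)
  refine ⟨hI, ?_⟩
  rw [hv2]
  congr 1
  -- Tonelli
  have hdm : AEStronglyMeasurable (dph n f) (volume.restrict (Ioi a)) :=
    (hdc.mono (Ioi_subset_Ioi ha.le)).aestronglyMeasurable measurableSet_Ioi
  set F : ℝ → ℝ → ℝ := fun β s => (Iic β).indicator (fun s => psd n b s * dph n f β) s with hF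
  have hin : ∀ β, a < β → ∫ s in Ioi a, F β s =
      wb b β ^ (((n : ℝ) - 2) / 2) * (β * dph n f β) := by
    intro β hβ
    rw [hF]
    dsimp only
    rw [setIntegral_indicator measurableSet_Iic, Ioi_inter_Iic, integral_mul_const,
      ← intervalIntegral.integral_of_le hβ.le, (hp2 β hβ.le).2]
    ring
  have hout : ∀ s, a < s → ∫ β in Ioi a, F β s =
      psd n b s * (RA n f 1 ^ (n - 1) - ph n f s) := by
    intro s hs
    have h1 : ∀ β, F β s = (Ici s).indicator (fun β => psd n b s * dph n f β) β := by
      intro β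
      rw [hF]
      dsimp only
      by_cases h : s ≤ β
      · rw [indicator_of_mem (show s ∈ Iic β from h), indicator_of_mem (show β ∈ Ici s from h)]
      · rw [indicator_of_notMem (show s ∉ Iic β from h),
          indicator_of_notMem (show β ∉ Ici s from h)]
    have h2 : Ioi a ∩ Ici s = Ici s := by
      rw [inter_eq_right]
      intro x hx
      exact lt_of_lt_of_le hs hx
    rw [integral_congr_ae (Eventually.of_forall h1)]
    rw [setIntegral_indicator measurableSet_Ici, h2, integral_const_mul,
      integral_Ici_eq_integral_Ioi, htail s (ha.le.trans hs.le)]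
  have hFm : AEStronglyMeasurable (Function.uncurry F)
      ((volume.restrict (Ioi a)).prod (volume.restrict (Ioi a))) := by
    have h1 : Function.uncurry F = {z : ℝ × ℝ | z.2 ≤ z.1}.indicator
        (fun z => psd n b z.2 * dph n f z.1) := by
      ext z
      obtain ⟨β, s⟩ := z
      rw [hF]
      simp only [Function.uncurry]
      by_cases h : s ≤ β
      · rw [indicator_of_mem (show s ∈ Iic β from h),
          indicator_of_mem (show (β, s) ∈ {z : ℝ × ℝ | z.2 ≤ z.1} from h)]
      · rw [indicator_of_notMem (show s ∉ Iic β from h),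
          indicator_of_notMem (show (β, s) ∉ {z : ℝ × ℝ | z.2 ≤ z.1} from h)]
    rw [h1]
    refine AEStronglyMeasurable.indicator ?_ (measurableSet_le measurable_snd measurable_fst)
    exact (hpm.comp measurable_snd).aestronglyMeasurable.mul hdm.comp_fst
  have hFi : Integrable (Function.uncurry F)
      ((volume.restrict (Ioi a)).prod (volume.restrict (Ioi a))) := by
    rw [integrable_prod_iff hFm]
    constructor
    · rw [ae_restrict_iff' measurableSet_Ioi]
      refine Eventually.of_forall fun β hβ => ?_
      have h1 : IntegrableOn (fun s => psd n b s * dph n f β) (Ioc a β) := by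
        have h2 := (hp2 β (le_of_lt hβ)).1
        rw [intervalIntegrable_iff_integrableOn_Ioc_of_le (le_of_lt hβ)] at h2
        exact h2.mul_const _
      show Integrable (F β) (volume.restrict (Ioi a))
      rw [hF]
      dsimp only
      rw [integrable_indicator_iff measurableSet_Iic, IntegrableOn,
        Measure.restrict_restrict measurableSet_Iic, Iic_inter_Ioi]
      exact h1
    · refine Integrable.congr (f := fun β => wb b β ^ (((n : ℝ) - 2) / 2) * (β * dph n f β))
        hv1 ?_
      rw [EventuallyEq, ae_restrict_iff' measurableSet_Ioi]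
      refine Eventually.of_forall fun β hβ => ?_
      rw [← hin β hβ]
      refine setIntegral_congr_fun measurableSet_Ioi fun s hs => ?_
      show F β s = ‖F β s‖
      have h0 : 0 ≤ F β s := by
        rw [hF]
        dsimp only
        by_cases h : s ≤ β
        · rw [indicator_of_mem (show s ∈ Iic β from h)]
          exact mul_nonneg (hp1 s hs).1 (hd1 β (ha.trans hβ)).2.2.2
        · rw [indicator_of_notMem (show s ∉ Iic β from h)]
      rw [Real.norm_eq_abs, abs_of_nonneg h0]
  calc ∫ β in Ioi a, wb b β ^ (((n : ℝ) - 2) / 2) * (β * dph n f β)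
      = ∫ β in Ioi a, ∫ s in Ioi a, F β s :=
        setIntegral_congr_fun measurableSet_Ioi fun β hβ => (hin β hβ).symm
    _ = ∫ s in Ioi a, ∫ β in Ioi a, F β s := integral_integral_swap hFi
    _ = ∫ s in Ioi a, psd n b s * (RA n f 1 ^ (n - 1) - ph n f s) :=
        setIntegral_congr_fun measurableSet_Ioi fun s hs => hout s hs

end Pool.Agent.REV.H40

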