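import Pool.Agent.REV.StmtsG2
import Pool.Agent.BPH.Gwa
import Pool.Agent.BPH.Gwb
import Pool.Agent.BPH.Bkk
import Pool.Agent.BPH.Sph

/-!
# Squad REV, row MOA: one vector, mean of `gw ^ 2 f` from the second moments
-/

set_option autoImplicit false

open MeasureTheory Module Set Filter
open scoped RealInnerProductSpace Pointwise Topology ENNReal

namespace Pool.Agent.REV.H40

open Pool.Agent.BPH Pool.Agent.REV

section

variable {E : Type} [NormedAddCommGroup E] [InnerProductSpace ℝ E] [FiniteDimensional ℝ E]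

theorem nrm_le (x : E) : ‖nrm x‖ ≤ 1 := by
  unfold nrm
  rw [norm_smul, norm_inv, norm_norm]
  rcases eq_or_ne ‖x‖ 0 with h | h
  · rw [h]; simp
  · rw [inv_mul_cancel₀ h]

theorem finrank_perp {i : ℕ} {v : Fin i → E} (hv : LinearIndependent ℝ v) :
    finrank ℝ (perp v) + i = finrank ℝ E := by
  unfold perp
  have h1 := Submodule.finrank_add_finrank_orthogonal (Submodule.span ℝ (Set.range v))
  rw [finrank_span_eq_card hv, Fintype.card_fin] at h1
  omega

/-- Parseval in the subspace `U` -/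
theorem norm_proj_sq (U : Submodule ℝ E) {m : ℕ} (w : OrthonormalBasis (Fin m) ℝ U) (z : E) :
    ‖U.starProjection z‖ ^ 2 = ∑ k, ⟪((w k : U) : E), z⟫ ^ 2 := by
  have h1 : ‖U.starProjection z‖ = ‖U.orthogonalProjectionOnto z‖ := rfl
  have h2 := w.sum_sq_norm_inner_right (U.orthogonalProjectionOnto z)
  rw [h1, ← h2]
  refine Finset.sum_congr rfl (fun k _ => ?_)
  rw [Real.norm_eq_abs, sq_abs]
  congr 1
  exact Submodule.inner_orthogonalProjectionOnto_eq_of_mem_left (w k) z

end

/-- row MOA -/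
theorem moa : MoaStmt := by
  intro E _ _ _ _ _ f u e' a b hf hSM j v
  have : IsProbabilityMeasure (sph E) := sph_facts.prob
  have hg : ∀ z : E, gw (cns z v) = gw v * ‖pp v z‖ := fun z => (gwa z v).2
  by_cases hv : LinearIndependent ℝ v
  · have hfr := finrank_perp hv
    set w := stdOrthonormalBasis ℝ (perp v) with hw
    have hpp : ∀ z : E, ‖pp v z‖ ^ 2 = ∑ k, ⟪((w k : perp v) : E), z⟫ ^ 2 := fun z =>
      norm_proj_sq (perp v) w z
    have hone : ∀ k, ‖((w k : perp v) : E)‖ = 1 := fun k => by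
      rw [Submodule.norm_coe]
      exact w.norm_eq_one k
    have hmeas := bkk_meas (E := E) (ℝ ∙ u)ᗮ
    obtain ⟨C, hC⟩ := hf.bdd
    have hint : ∀ k, Integrable (fun x => ⟪((w k : perp v) : E),
        nrm ((ℝ ∙ u)ᗮ.starProjection x)⟫ ^ 2 * f (nrm ((ℝ ∙ u)ᗮ.starProjection x))) (sph E) := by
      intro k
      refine Integrable.of_bound (C := C) ?_ (Eventually.of_forall (fun x => ?_))
      · refine Measurable.aestronglyMeasurable ?_
        refine Measurable.mul ?_ (hf.meas.comp hmeas)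
        exact (Measurable.inner measurable_const hmeas).pow_const 2
      · rw [Real.norm_eq_abs, abs_mul, abs_pow]
        have h1 : |⟪((w k : perp v) : E), nrm ((ℝ ∙ u)ᗮ.starProjection x)⟫| ≤ 1 := by
          refine (abs_real_inner_le_norm _ _).trans ?_
          rw [hone k, one_mul]
          exact nrm_le _
        have h2 : |⟪((w k : perp v) : E), nrm ((ℝ ∙ u)ᗮ.starProjection x)⟫| ^ 2 ≤ 1 :=
          pow_le_one₀ (abs_nonneg _) h1
        have h3 := hC (nrm ((ℝ ∙ u)ᗮ.starProjection x))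
        have h4 := abs_nonneg (f (nrm ((ℝ ∙ u)ᗮ.starProjection x)))
        calc |⟪((w k : perp v) : E), nrm ((ℝ ∙ u)ᗮ.starProjection x)⟫| ^ 2 *
              |f (nrm ((ℝ ∙ u)ᗮ.starProjection x))|
            ≤ 1 * |f (nrm ((ℝ ∙ u)ᗮ.starProjection x))| :=
              mul_le_mul_of_nonneg_right h2 h4
          _ ≤ C := by rw [one_mul]; exact h3
    have hL : mS (ℝ ∙ u)ᗮ (fun x => gw (cns x v) ^ 2 * f x) =
        gw v ^ 2 * ∑ k, mS (ℝ ∙ u)ᗮ (fun x => ⟪((w k : perp v) : E), x⟫ ^ 2 * f x) := by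
      unfold mS
      rw [← integral_finsetSum _ (fun k _ => hint k), ← integral_const_mul]
      refine integral_congr_ae (Eventually.of_forall (fun x => ?_))
      dsimp only
      rw [hg, mul_pow, hpp, ← Finset.sum_mul]
      ring
    rw [hL]
    have hS : ∑ k, mS (ℝ ∙ u)ᗮ (fun x => ⟪((w k : perp v) : E), x⟫ ^ 2 * f x) =
        b * ((finrank ℝ E : ℝ) - j) + (a - b) * ‖pp v e'‖ ^ 2 - b * ‖pp v u‖ ^ 2 := by
      rw [Finset.sum_congr rfl (fun k _ => hSM ((w k : perp v) : E)), hpp e', hpp u,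
        Finset.sum_sub_distrib, Finset.sum_add_distrib, ← Finset.mul_sum, ← Finset.mul_sum,
        ← Finset.mul_sum]
      have h1 : ∑ k, ‖((w k : perp v) : E)‖ ^ 2 = ((finrank ℝ E : ℝ) - j) := by
        rw [Finset.sum_congr rfl (fun k _ => by rw [hone k, one_pow])]
        rw [Finset.sum_const, Finset.card_univ, Fintype.card_fin, nsmul_eq_mul, mul_one]
        have : ((finrank ℝ (perp v) : ℕ) : ℝ) + (j : ℝ) = (finrank ℝ E : ℝ) := by
          exact_mod_cast hfr
        linarith
      rw [h1]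
    rw [hS, hg u, hg e']
    ring
  · have h0 : gw v = 0 := by
      have h1 : ¬ 0 < gw v := fun h => hv (((gwb gwa).pos_iff v).1 h)
      exact le_antisymm (not_lt.1 h1) (Real.sqrt_nonneg _)
    have h2 : ∀ z : E, gw (cns z v) = 0 := fun z => by rw [hg, h0, zero_mul]
    have h3 : mS (ℝ ∙ u)ᗮ (fun x => gw (cns x v) ^ 2 * f x) = 0 := by
      unfold mS
      simp only [h2]
      simp
    rw [h3, h2, h2, h0]
    ring

end Pool.Agent.REV.H40

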